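import Pool.Agent.H39.VQ.Targets

/-!
Board `vq_modules`, row FP: frequencies of `h conj h'`.
-/

set_option autoImplicit false

open Finset

namespace Pool.Agent.H17.VQ

open Pool.Agent.H11.CV Pool.Agent.H39.VQ

theorem pf_FP (hEX : T_EX) (hFT : V_FT) (hFR : V_FR) : V_FP := by
  intro p L k k' ε ε' s s' G _ _ u0 u1 u2 h h' hp hL hk hk' hh hh' χ hχ
  obtain ⟨e1, e2, -⟩ := hEX
  obtain ⟨ψ, hψ1, hψ2⟩ := (hFT G).2.2.2.2.2 h h' χ hχ
  obtain ⟨⟨x', y', z', hx'⟩, hP'⟩ := hFR p L k' ε' s' G u0 u1 u2 h' hp hL hk' hh' ψ hψ2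
  obtain ⟨⟨a, b, c, ha⟩, hP⟩ := hFR p L k ε s G u0 u1 u2 h hp hL hk hh (χ * ψ) hψ1
  have key : ∀ (u : G) (m n : ℤ), (χ * ψ) u = ee (p ^ L) m → ψ u = ee (p ^ L) n →
      χ u = ee (p ^ L) (m - n) := by
    intro u m n h1 h2
    rw [AddChar.mul_apply, h2] at h1
    have h3 : ee (p ^ L) m = ee (p ^ L) (m - n) * ee (p ^ L) n := by
      rw [← e2]
      congr 1
      ring
    have h4 : ee (p ^ L) n ≠ 0 := by
      intro h5
      have := e1 (p ^ L) n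
      rw [h5, norm_zero] at this
      exact zero_ne_one this
    exact mul_right_cancel₀ h4 (h1.trans h3)
  refine ⟨⟨a - x', b - y', c - z', key u0 a x' ha.1 hx'.1, key u1 b y' ha.2.1 hx'.2.1,
    key u2 c z' ha.2.2 hx'.2.2⟩, ?_⟩
  intro x y z hx
  refine ⟨x', y', z', hP' x' y' z' hx', hP _ _ _ ⟨?_, ?_, ?_⟩⟩
  · rw [AddChar.mul_apply, hx.1, hx'.1, ← e2]
  · rw [AddChar.mul_apply, hx.2.1, hx'.2.1, ← e2]
  · rw [AddChar.mul_apply, hx.2.2, hx'.2.2, ← e2]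

end Pool.Agent.H17.VQ
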