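import Pool.Agent.H39.VQ.Targets

/-!
Board `vq_modules`, row N4: the equations modulo `p` for four children of a node.
-/

set_option autoImplicit false

namespace Pool.Agent.H17.VQ

open Pool.Agent.H11.CV Pool.Agent.H39.VQ

theorem pf_N4 : V_N4 := by
  intro p j ε t r x y z hp hp2 hε h hx hy hz
  have hpZ : Prime (p : ℤ) := Nat.prime_iff_prime_int.1 hp
  have hq : (p : ℤ) ^ j ≠ 0 := pow_ne_zero _ hpZ.ne_zero
  have h2 : ¬ (p : ℤ) ∣ 2 := by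
    intro hd
    have hd' : p ∣ 2 := by exact_mod_cast hd
    exact hp2 ((Nat.prime_dvd_prime_iff_eq hp Nat.prime_two).1 hd')
  have e1 : (p : ℤ) ^ (j + 1) = (p : ℤ) ^ j * p := pow_succ _ _
  have e2 : (p : ℤ) ^ (2 * (j + 1)) = (p : ℤ) ^ j * (p : ℤ) ^ j * p * p := by ring
  have hxa : ∀ i, (p : ℤ) ∣ x i - ε := fun i => (h i).1
  have hyb : ∀ i, (p : ℤ) ^ j * p ∣ y i - (t + (p : ℤ) ^ j * r i) * x i := fun i => e1 ▸ (h i).2.1
  have hzc : ∀ i, (p : ℤ) ^ j * (p : ℤ) ^ j * p * p ∣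
      z i - 2 * (t + (p : ℤ) ^ j * r i) * y i + (t + (p : ℤ) ^ j * r i) ^ 2 * x i :=
    fun i => e2 ▸ (h i).2.2
  rw [e2] at hx hy hz
  generalize (p : ℤ) ^ j = q at *
  choose a ha using hxa
  choose b hb using hyb
  choose c hc using hzc
  obtain ⟨X, hX⟩ := hx
  obtain ⟨Y, hY⟩ := hy
  obtain ⟨Z, hZ⟩ := hz
  have k1 : (p : ℤ) ∣ r 0 - r 1 - (r 2 - r 3) := by
    have h1 : q * (ε * (r 0 - r 1 - (r 2 - r 3))) =
        q * (p * (q * p * (Y - t * X) - ((r 0 * a 0 + b 0) - (r 1 * a 1 + b 1) -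
          ((r 2 * a 2 + b 2) - (r 3 * a 3 + b 3))))) := by
      linear_combination hY - t * hX - (hb 0 - hb 1 - (hb 2 - hb 3)) -
        q * (r 0 * ha 0 - r 1 * ha 1 - (r 2 * ha 2 - r 3 * ha 3))
    have h3 := mul_left_cancel₀ hq h1
    exact (hpZ.dvd_or_dvd (Dvd.intro _ h3.symm)).resolve_left hε
  have k2 : (p : ℤ) ∣ r 0 ^ 2 - r 1 ^ 2 - (r 2 ^ 2 - r 3 ^ 2) := by
    have h1 : q * q * (ε * (r 0 ^ 2 - r 1 ^ 2 - (r 2 ^ 2 - r 3 ^ 2))) =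
        q * q * (p * (p * (Z - 2 * t * Y + t ^ 2 * X) -
          ((r 0 ^ 2 * a 0 + 2 * r 0 * b 0 + p * c 0) - (r 1 ^ 2 * a 1 + 2 * r 1 * b 1 + p * c 1) -
          ((r 2 ^ 2 * a 2 + 2 * r 2 * b 2 + p * c 2) -
            (r 3 ^ 2 * a 3 + 2 * r 3 * b 3 + p * c 3))))) := by
      linear_combination hZ - 2 * t * hY + t ^ 2 * hX - (hc 0 - hc 1 - (hc 2 - hc 3)) -
        2 * q * (r 0 * hb 0 - r 1 * hb 1 - (r 2 * hb 2 - r 3 * hb 3)) -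
        q ^ 2 * (r 0 ^ 2 * ha 0 - r 1 ^ 2 * ha 1 - (r 2 ^ 2 * ha 2 - r 3 ^ 2 * ha 3))
    have h3 := mul_left_cancel₀ (mul_ne_zero hq hq) h1
    exact (hpZ.dvd_or_dvd (Dvd.intro _ h3.symm)).resolve_left hε
  by_cases hD : (p : ℤ) ∣ r 0 - r 1
  · right
    refine ⟨hD, ?_⟩
    have := dvd_sub hD k1
    rwa [show r 0 - r 1 - (r 0 - r 1 - (r 2 - r 3)) = r 2 - r 3 by ring] at this
  · left
    have h1 : (p : ℤ) ∣ (r 0 - r 1) * (r 0 + r 1 - (r 2 + r 3)) := by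
      have := dvd_sub k2 (Dvd.dvd.mul_right k1 (r 2 + r 3))
      rwa [show r 0 ^ 2 - r 1 ^ 2 - (r 2 ^ 2 - r 3 ^ 2) - (r 0 - r 1 - (r 2 - r 3)) * (r 2 + r 3) =
        (r 0 - r 1) * (r 0 + r 1 - (r 2 + r 3)) by ring] at this
    have h3 := (hpZ.dvd_or_dvd h1).resolve_left hD
    constructor
    · have := dvd_add h3 k1
      rw [show r 0 + r 1 - (r 2 + r 3) + (r 0 - r 1 - (r 2 - r 3)) = 2 * (r 0 - r 2) by ring] at this
      exact (hpZ.dvd_or_dvd this).resolve_left h2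
    · have := dvd_sub h3 k1
      rw [show r 0 + r 1 - (r 2 + r 3) - (r 0 - r 1 - (r 2 - r 3)) = 2 * (r 1 - r 3) by ring] at this
      exact (hpZ.dvd_or_dvd this).resolve_left h2

end Pool.Agent.H17.VQ
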