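import Pool.Agent.H39.VQ.Targets

/-!
Board `vq_modules`, row SQ: the square function estimate for the light cone.
-/

set_option autoImplicit false

open Finset

namespace Pool.Agent.H17.VQ.SQ

open Pool.Agent.H11.CV Pool.Agent.H39.VQ

section
variable {G : Type}

/-- block sums -/
noncomputable def B (p k : ℕ) (f : ℕ → G → ℂ) (j c : ℕ) (g : G) : ℂ :=
  ∑ z ∈ range (p ^ (k - j)), f (c + p ^ j * z) g

theorem B_top (p k : ℕ) (f : ℕ → G → ℂ) (c : ℕ) (g : G) : B p k f k c g = f c g := by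
  simp [B]

theorem B_split (hRS : T_RS) {p k : ℕ} (hp : 1 < p) (f : ℕ → G → ℂ) {j : ℕ} (hj : j < k)
    (c : ℕ) (g : G) : B p k f j c g = ∑ i ∈ range p, B p k f (j + 1) (c + p ^ j * i) g := by
  have h := (hRS p 1 (k - (j + 1)) hp).1 ℂ (fun z => f (c + p ^ j * z) g)
  have e : 1 + (k - (j + 1)) = k - j := by omega
  rw [e, pow_one] at h
  rw [B, h]
  refine sum_congr rfl fun i _ => ?_
  rw [B]
  refine sum_congr rfl fun z _ => ?_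
  congr 1
  ring

theorem dd_eq (hRS : T_RS) {p k : ℕ} (hp : 1 < p) (f : ℕ → G → ℂ) {j : ℕ} (hj : j < k)
    (c : ℕ) (g : G) : dd p j (B p k f (j + 1)) c g =
      ‖B p k f j c g‖ ^ 2 - ∑ i ∈ range p, ‖B p k f (j + 1) (c + p ^ j * i) g‖ ^ 2 := by
  rw [dd, B_split hRS hp f hj]

end

section
variable {G : Type} [AddCommGroup G] [Fintype G]

theorem B_Kc (hRS : T_RS) (hKM : V_KM) {p L k : ℕ} (hp : 1 < p) (hL : 1 ≤ L) (hk : 2 * k ≤ L)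
    {ε : ℤ} {u0 u1 u2 : G} {f : ℕ → G → ℂ}
    (hf : ∀ s : ℕ, s < p ^ k → Kc p L k u0 u1 u2 ε (s : ℤ) (f s)) {j : ℕ} (hj : j ≤ k)
    {c : ℕ} (hc : c < p ^ j) : Kc p L j u0 u1 u2 ε (c : ℤ) (B p k f j c) := by
  have hK := hKM p L G u0 u1 u2 hp hL
  have h := hK.2.2.1 j ε (c : ℤ) (range (p ^ (k - j))) (fun z => f (c + p ^ j * z)) (by
    intro z hz
    have hz' := mem_range.1 hz
    have hlt := (hRS p j (k - j) hp).2.1 c z hc hz'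
    have e : j + (k - j) = k := by omega
    rw [e] at hlt
    refine hK.1 k j ε ((c + p ^ j * z : ℕ) : ℤ) (c : ℤ) _ hk hj ?_ (hf _ hlt)
    refine ⟨-(z : ℤ), ?_⟩
    push_cast
    ring)
  exact h

theorem node (hRS : T_RS) (hKM : V_KM) (hM1 : V_M1) (hM2 : V_M2) {p L k : ℕ} (hp : p.Prime)
    (hp2 : p ≠ 2) (hL : 1 ≤ L) (hk : 2 * k ≤ L) {ε : ℤ} (hε : ¬ (p : ℤ) ∣ ε) {u0 u1 u2 : G}
    {f : ℕ → G → ℂ} (hf : ∀ s : ℕ, s < p ^ k → Kc p L k u0 u1 u2 ε (s : ℤ) (f s)) {j : ℕ}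
    (hj : j < k) {c : ℕ} (hc : c < p ^ j) :
    ∑ g, ‖B p k f j c g‖ ^ 4 = 2 * ∑ g, (dd p j (B p k f (j + 1)) c g) ^ 2 +
      ∑ i ∈ range p, ∑ g, ‖B p k f (j + 1) (c + p ^ j * i) g‖ ^ 4 := by
  have hp1 : 1 < p := hp.one_lt
  have hlt : ∀ i : ℕ, i < p → c + p ^ j * i < p ^ (j + 1) := fun i hi =>
    (hRS p j 1 hp1).2.1 c i hc (by rwa [pow_one])
  have h1 := hM1 p L j ε (c : ℤ) G u0 u1 u2 (fun i => B p k f (j + 1) (c + p ^ j * i)) hp hp2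
    (by omega) hε (by
      intro i hi
      have := B_Kc hRS hKM hp1 hL hk hf (j := j + 1) (by omega) (hlt i hi)
      push_cast at this
      exact this)
  have h2 := hM2 p L j ε {c} G u0 u1 u2 (B p k f (j + 1)) hp hp2 (by omega) hε
    (by
      intro c' hc'
      rw [mem_singleton] at hc'
      rw [hc']
      exact hc)
    (fun s hs => B_Kc hRS hKM hp1 hL hk hf (j := j + 1) (by omega) hs)
  simp only [sum_singleton] at h2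
  have h3 : ∑ g, (dd p j (B p k f (j + 1)) c g) ^ 2 =
      ∑ g, (‖∑ i ∈ range p, B p k f (j + 1) (c + p ^ j * i) g‖ ^ 2 -
        ∑ i ∈ range p, ‖B p k f (j + 1) (c + p ^ j * i) g‖ ^ 2) ^ 2 := rfl
  rw [← h3] at h1
  have h4 : ∑ g, ‖B p k f j c g‖ ^ 4 = ∑ g, ((dd p j (B p k f (j + 1)) c g) ^ 2 +
      2 * (dd p j (B p k f (j + 1)) c g *
        ∑ i ∈ range p, ‖B p k f (j + 1) (c + p ^ j * i) g‖ ^ 2) +
      (∑ i ∈ range p, ‖B p k f (j + 1) (c + p ^ j * i) g‖ ^ 2) ^ 2) := by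
    refine sum_congr rfl fun g _ => ?_
    rw [dd_eq hRS hp1 f hj]
    ring
  rw [h4, sum_add_distrib, sum_add_distrib, ← mul_sum, h2]
  linarith

theorem step (hRS : T_RS) (hKM : V_KM) (hM1 : V_M1) (hM2 : V_M2) (hM3 : V_M3) {p L k : ℕ}
    (hp : p.Prime) (hp2 : p ≠ 2) (hL : 1 ≤ L) (hk : 2 * k ≤ L) {ε : ℤ} (hε : ¬ (p : ℤ) ∣ ε)
    {u0 u1 u2 : G} {f : ℕ → G → ℂ}
    (hf : ∀ s : ℕ, s < p ^ k → Kc p L k u0 u1 u2 ε (s : ℤ) (f s)) {j : ℕ} (hj : j < k)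
    (C C' : Finset ℕ) (hC : ∀ c ∈ C, c < p ^ j)
    (hC' : ∀ F : ℕ → ℝ, ∑ c ∈ C', F c = ∑ c ∈ C, ∑ i ∈ range p, F (c + p ^ j * i)) :
    (∑ c ∈ C, ∑ g, ‖B p k f j c g‖ ^ 4 =
      2 * ∑ c ∈ C, ∑ g, (dd p j (B p k f (j + 1)) c g) ^ 2 +
        ∑ c ∈ C', ∑ g, ‖B p k f (j + 1) c g‖ ^ 4) ∧
    (∑ g, (∑ c ∈ C, ‖B p k f j c g‖ ^ 2) ^ 2 = ∑ g, (∑ c ∈ C', ‖B p k f (j + 1) c g‖ ^ 2) ^ 2 +
      ∑ g, (∑ c ∈ C, dd p j (B p k f (j + 1)) c g) ^ 2) ∧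
    (∑ g, (∑ c ∈ C, dd p j (B p k f (j + 1)) c g) ^ 2 ≤
      2 * ∑ c ∈ C, ∑ g, (dd p j (B p k f (j + 1)) c g) ^ 2) := by
  have hp1 : 1 < p := hp.one_lt
  have hK : ∀ s : ℕ, s < p ^ (j + 1) → Kc p L (j + 1) u0 u1 u2 ε (s : ℤ) (B p k f (j + 1) s) :=
    fun s hs => B_Kc hRS hKM hp1 hL hk hf (j := j + 1) (by omega) hs
  refine ⟨?_, ?_, hM3 p L j ε C G u0 u1 u2 _ hp hp2 (by omega) hε hC hK⟩
  · rw [hC', mul_sum, ← sum_add_distrib]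
    exact sum_congr rfl fun c hc => node hRS hKM hM1 hM2 hp hp2 hL hk hε hf hj (hC c hc)
  · have h2 := hM2 p L j ε C G u0 u1 u2 (B p k f (j + 1)) hp hp2 (by omega) hε hC hK
    have h4 : ∑ g, (∑ c ∈ C, ‖B p k f j c g‖ ^ 2) ^ 2 =
        ∑ g, ((∑ c ∈ C', ‖B p k f (j + 1) c g‖ ^ 2) ^ 2 +
          2 * ((∑ c ∈ C, dd p j (B p k f (j + 1)) c g) *
            (∑ c ∈ C, ∑ i ∈ range p, ‖B p k f (j + 1) (c + p ^ j * i) g‖ ^ 2)) +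
          (∑ c ∈ C, dd p j (B p k f (j + 1)) c g) ^ 2) := by
      refine sum_congr rfl fun g _ => ?_
      have e1 : ∑ c ∈ C, dd p j (B p k f (j + 1)) c g = ∑ c ∈ C, ‖B p k f j c g‖ ^ 2 -
          ∑ c ∈ C, ∑ i ∈ range p, ‖B p k f (j + 1) (c + p ^ j * i) g‖ ^ 2 := by
        rw [← sum_sub_distrib]
        exact sum_congr rfl fun c _ => dd_eq hRS hp1 f hj c g
      rw [e1, hC' (fun c => ‖B p k f (j + 1) c g‖ ^ 2)]
      ring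
    rw [h4, sum_add_distrib, sum_add_distrib, ← mul_sum, h2]
    ring

/-- nodes of level `j` in the block `c0` of level `j0` -/
def Nd (p j0 c0 j : ℕ) : Finset ℕ := (range (p ^ (j - j0))).image (fun y => c0 + p ^ j0 * y)

theorem Nd_sum {p : ℕ} (hp : 1 < p) (j0 c0 j : ℕ) (F : ℕ → ℝ) :
    ∑ c ∈ Nd p j0 c0 j, F c = ∑ y ∈ range (p ^ (j - j0)), F (c0 + p ^ j0 * y) := by
  rw [Nd, sum_image]
  intro a _ b _ h
  have hpos : 0 < p ^ j0 := pow_pos (by omega) _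
  have h' : p ^ j0 * a = p ^ j0 * b := by
    have h2 : c0 + p ^ j0 * a = c0 + p ^ j0 * b := h
    omega
  exact Nat.eq_of_mul_eq_mul_left hpos h'

theorem Nd_lt (hRS : T_RS) {p : ℕ} (hp : 1 < p) {j0 c0 j : ℕ} (hj : j0 ≤ j) (hc0 : c0 < p ^ j0) :
    ∀ c ∈ Nd p j0 c0 j, c < p ^ j := by
  intro c hc
  obtain ⟨y, hy, rfl⟩ := mem_image.1 hc
  have h := (hRS p j0 (j - j0) hp).2.1 c0 y hc0 (mem_range.1 hy)
  rwa [show j0 + (j - j0) = j by omega] at h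

theorem Nd_child (hRS : T_RS) {p : ℕ} (hp : 1 < p) {j0 c0 j : ℕ} (hj : j0 ≤ j) (F : ℕ → ℝ) :
    ∑ c ∈ Nd p j0 c0 (j + 1), F c = ∑ c ∈ Nd p j0 c0 j, ∑ i ∈ range p, F (c + p ^ j * i) := by
  rw [Nd_sum hp, Nd_sum hp]
  have h := (hRS p (j - j0) 1 hp).1 ℝ (fun y => F (c0 + p ^ j0 * y))
  rw [show j - j0 + 1 = j + 1 - j0 by omega, pow_one] at h
  rw [h]
  refine sum_congr rfl fun y _ => sum_congr rfl fun i _ => ?_
  congr 1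
  have e : p ^ j = p ^ j0 * p ^ (j - j0) := by rw [← pow_add]; congr 1; omega
  rw [e]
  ring

theorem Nd_self (p j0 c0 : ℕ) : Nd p j0 c0 j0 = {c0} := by
  simp [Nd]

theorem claim (hRS : T_RS) (hKM : V_KM) (hM1 : V_M1) (hM2 : V_M2) (hM3 : V_M3) {p L k : ℕ}
    (hp : p.Prime) (hp2 : p ≠ 2) (hL : 1 ≤ L) (hk : 2 * k ≤ L) {ε : ℤ} (hε : ¬ (p : ℤ) ∣ ε)
    {u0 u1 u2 : G} {f : ℕ → G → ℂ}
    (hf : ∀ s : ℕ, s < p ^ k → Kc p L k u0 u1 u2 ε (s : ℤ) (f s)) {j0 : ℕ} (hj0 : j0 < k)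
    {c0 : ℕ} (hc0 : c0 < p ^ j0) :
    ∑ g, (dd p j0 (B p k f (j0 + 1)) c0 g) ^ 2 ≤
      ∑ g, (∑ y ∈ range (p ^ (k - j0)), ‖f (c0 + p ^ j0 * y) g‖ ^ 2) ^ 2 := by
  have hp1 : 1 < p := hp.one_lt
  set Δ : ℕ → ℝ := fun j => ∑ g, (∑ c ∈ Nd p j0 c0 j, ‖B p k f j c g‖ ^ 2) ^ 2 -
    ∑ c ∈ Nd p j0 c0 j, ∑ g, ‖B p k f j c g‖ ^ 4 with hΔ
  have hst := fun (j : ℕ) (h1 : j0 ≤ j) (h2 : j < k) =>
    step hRS hKM hM1 hM2 hM3 hp hp2 hL hk hε hf h2 (Nd p j0 c0 j) (Nd p j0 c0 (j + 1))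
      (Nd_lt hRS hp1 h1 hc0) (Nd_child hRS hp1 h1)
  have hmono : ∀ i : ℕ, j0 + 1 + i ≤ k → Δ (j0 + 1) ≤ Δ (j0 + 1 + i) := by
    intro i
    induction i with
    | zero => intro _; exact le_rfl
    | succ i ih =>
      intro hi
      refine (ih (by omega)).trans ?_
      obtain ⟨e1, e2, e3⟩ := hst (j0 + 1 + i) (by omega) (by omega)
      simp only [hΔ]
      rw [show j0 + 1 + (i + 1) = j0 + 1 + i + 1 by omega]
      linarith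
  have h1 := hmono (k - (j0 + 1)) (by omega)
  rw [show j0 + 1 + (k - (j0 + 1)) = k by omega] at h1
  obtain ⟨e1, e2, -⟩ := hst j0 le_rfl hj0
  rw [Nd_self] at e1 e2
  simp only [sum_singleton] at e1 e2
  have e3 : ∑ g, (‖B p k f j0 c0 g‖ ^ 2) ^ 2 = ∑ g, ‖B p k f j0 c0 g‖ ^ 4 :=
    sum_congr rfl fun g _ => by ring
  have h2 : Δ k ≤ ∑ g, (∑ y ∈ range (p ^ (k - j0)), ‖f (c0 + p ^ j0 * y) g‖ ^ 2) ^ 2 := by
    simp only [hΔ]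
    have h3 : 0 ≤ ∑ c ∈ Nd p j0 c0 k, ∑ g, ‖B p k f k c g‖ ^ 4 :=
      sum_nonneg fun c _ => sum_nonneg fun g _ => by positivity
    have h4 : ∑ g, (∑ c ∈ Nd p j0 c0 k, ‖B p k f k c g‖ ^ 2) ^ 2 =
        ∑ g, (∑ y ∈ range (p ^ (k - j0)), ‖f (c0 + p ^ j0 * y) g‖ ^ 2) ^ 2 := by
      refine sum_congr rfl fun g _ => ?_
      rw [Nd_sum hp1 j0 c0 k (fun c => ‖B p k f k c g‖ ^ 2)]
      simp only [B_top]
    linarith
  have h5 : Δ (j0 + 1) = ∑ g, (dd p j0 (B p k f (j0 + 1)) c0 g) ^ 2 := by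
    simp only [hΔ]
    linarith
  linarith

end

theorem sum_sq_le {ι : Type} (s : Finset ι) (x : ι → ℝ) (hx : ∀ i ∈ s, 0 ≤ x i) :
    ∑ i ∈ s, x i ^ 2 ≤ (∑ i ∈ s, x i) ^ 2 := by
  rw [pow_two (∑ i ∈ s, x i), sum_mul]
  refine sum_le_sum fun i hi => ?_
  rw [pow_two]
  exact mul_le_mul_of_nonneg_left (single_le_sum hx hi) (hx i hi)

theorem pf_SQ (hRS : T_RS) (hKM : V_KM) (hM1 : V_M1) (hM2 : V_M2) (hM3 : V_M3) : V_SQ := by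
  intro p L k ε G _ _ u0 u1 u2 f hp hp2 hL hk hε hf
  have hp1 : 1 < p := hp.one_lt
  set SS : ℝ := ∑ g, (∑ s ∈ range (p ^ k), ‖f s g‖ ^ 2) ^ 2 with hSS
  have hst := fun (j : ℕ) (h2 : j < k) =>
    step hRS hKM hM1 hM2 hM3 hp hp2 hL hk hε hf h2 (Nd p 0 0 j) (Nd p 0 0 (j + 1))
      (Nd_lt hRS hp1 (Nat.zero_le j) (by simp)) (Nd_child hRS hp1 (Nat.zero_le j))
  have hT : ∀ j : ℕ, j < k →
      ∑ c ∈ Nd p 0 0 j, ∑ g, (dd p j (B p k f (j + 1)) c g) ^ 2 ≤ SS := by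
    intro j hj
    rw [Nd_sum hp1 0 0 j (fun c => ∑ g, (dd p j (B p k f (j + 1)) c g) ^ 2)]
    simp only [pow_zero, one_mul, zero_add, Nat.sub_zero]
    have h1 : ∑ y ∈ range (p ^ j), ∑ g, (dd p j (B p k f (j + 1)) y g) ^ 2 ≤
        ∑ c ∈ range (p ^ j),
          ∑ g, (∑ y ∈ range (p ^ (k - j)), ‖f (c + p ^ j * y) g‖ ^ 2) ^ 2 :=
      sum_le_sum fun c hc =>
        claim hRS hKM hM1 hM2 hM3 hp hp2 hL hk hε hf hj (mem_range.1 hc)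
    refine h1.trans ?_
    rw [sum_comm, hSS]
    refine sum_le_sum fun g _ => ?_
    have h2 := (hRS p j (k - j) hp1).1 ℝ (fun s => ‖f s g‖ ^ 2)
    rw [show j + (k - j) = k by omega] at h2
    rw [h2]
    exact sum_sq_le _ _ fun c _ => sum_nonneg fun y _ => by positivity
  have hmain : ∀ i : ℕ, i ≤ k →
      ∑ g, (∑ c ∈ Nd p 0 0 (k - i), ‖B p k f (k - i) c g‖ ^ 2) ^ 2 ≤ (1 + 2 * (i : ℝ)) * SS := by
    intro i
    induction i with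
    | zero =>
      intro _
      simp only [Nat.sub_zero, Nat.cast_zero, mul_zero, add_zero, one_mul]
      refine le_of_eq (sum_congr rfl fun g _ => ?_)
      rw [Nd_sum hp1 0 0 k (fun c => ‖B p k f k c g‖ ^ 2)]
      simp only [B_top, pow_zero, one_mul, zero_add, Nat.sub_zero]
    | succ i ih =>
      intro hi
      have h1 := ih (by omega)
      obtain ⟨-, e2, e3⟩ := hst (k - (i + 1)) (by omega)
      have h2 := hT (k - (i + 1)) (by omega)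
      rw [show k - (i + 1) + 1 = k - i by omega] at e2 e3 h2
      push_cast
      linarith
  have h0 := hmain k le_rfl
  rw [Nat.sub_self, Nd_self] at h0
  refine le_trans (le_of_eq ?_) h0
  refine sum_congr rfl fun g _ => ?_
  rw [sum_singleton]
  have e : B p k f 0 0 g = ∑ s ∈ range (p ^ k), f s g := by
    simp [B]
  rw [e]
  ring

end Pool.Agent.H17.VQ.SQ
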